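import Pool.Agent.H83.UE.Targets3
import Pool.Agent.H35.UDA.BB

/-!
# Module BBE: the direct image of `χ dz` is small in `L²` away from the exceptional points
-/

set_option autoImplicit false

open Polynomial MeasureTheory Filter Topology Set
open scoped OnePoint ComplexConjugate ComplexOrder Laplacian ENNReal
open Pool.Agent.H83.UE
open Pool.Agent.H35.UDA

namespace Pool.Agent.H4.UDB

theorem add_sq (a b : ℝ≥0∞) : (a + b) ^ 2 ≤ 3 * a ^ 2 + 3 * b ^ 2 := by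
  have h1 : (a + b) ^ 2 = a ^ 2 + b ^ 2 + 2 * (a * b) := by ring
  have h2 := mul_le_sq a b
  calc (a + b) ^ 2 = a ^ 2 + b ^ 2 + 2 * (a * b) := h1
    _ ≤ a ^ 2 + b ^ 2 + 2 * (a ^ 2 + b ^ 2) := by gcongr
    _ = 3 * a ^ 2 + 3 * b ^ 2 := by ring

theorem amgm (l : ℝ) (hl : 0 < l) (a b : ℝ≥0∞) :
    a * b ≤ ENNReal.ofReal l * a ^ 2 + ENNReal.ofReal l⁻¹ * b ^ 2 := by
  have h0 : ENNReal.ofReal l * ENNReal.ofReal l⁻¹ = 1 := by
    rw [← ENNReal.ofReal_mul hl.le, mul_inv_cancel₀ hl.ne', ENNReal.ofReal_one]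
  rcases le_total b (ENNReal.ofReal l * a) with h | h
  · calc a * b ≤ a * (ENNReal.ofReal l * a) := mul_le_mul_right h a
      _ = ENNReal.ofReal l * a ^ 2 := by ring
      _ ≤ _ := le_self_add
  · calc a * b = ENNReal.ofReal l⁻¹ * (ENNReal.ofReal l * a) * b := by
          rw [← mul_assoc, mul_comm (ENNReal.ofReal l⁻¹), h0, one_mul]
      _ ≤ ENNReal.ofReal l⁻¹ * b * b := by gcongr
      _ = ENNReal.ofReal l⁻¹ * b ^ 2 := by ring
      _ ≤ _ := le_add_self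

open Classical in
theorem core (h5 : T_SIM) (h6 : T_ARE) (h7 : T_MEA) (h8 : T_CON) (h9 : T_INT) (h10 : T_DV)
    (h11 : T_IBP) {D : ℕ} {P Q : ℂ[X]} (hD : 1 ≤ D) (hc : IsCoprime P Q) (hP : P.natDegree ≤ D)
    (hQ : Q.natDegree ≤ D) (hm : P.natDegree = D ∨ Q.natDegree = D) (χ : ℂ → ℂ)
    (hχ : ContDiff ℝ 2 χ) (hχc : HasCompactSupport χ) (U : ℂ → ℂ) (hU1 : ContDiff ℝ 1 U)
    (hUχ : ∀ z, dz U z = χ z) (hUL : ∫⁻ z, ‖fderiv ℝ U z‖ₑ ^ 2 < ⊤) (c : ℂ) (B : ℝ)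
    (hB : 0 ≤ B) (ψ : ℂ → ℝ) (hψ : ContDiff ℝ 1 ψ) (hψ1 : ∀ z, 0 ≤ ψ z ∧ ψ z ≤ 1)
    (hψL : ∫⁻ z, ‖fderiv ℝ ψ z‖ₑ ^ 2 < ⊤)
    (hv : ∀ z, ψ z ≠ 0 → ‖((P - C z * Q).roots.map U).sum - c‖ ≤ B) (l : ℝ) (hl : 0 < l) :
    ∫⁻ z, ENNReal.ofReal (ψ z) * ‖((P - C z * Q).roots.map fun x =>
      χ x / deriv (fun y => P.eval y / Q.eval y) x).sum‖ₑ ^ 2 ≤
      ENNReal.ofReal B * ((∫⁻ z, ‖dzb χ z‖ₑ) + (ENNReal.ofReal l * (∫⁻ z, ‖χ z‖ₑ ^ 2) +
        ENNReal.ofReal l⁻¹ * (D * ∫⁻ z, ‖fderiv ℝ ψ z‖ₑ ^ 2))) := by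
  have hdeg : 0 < P.natDegree ∨ 0 < Q.natDegree := by
    rcases hm with h | h
    · left
      omega
    · right
      omega
  obtain ⟨h, hh⟩ : ∃ h : ℂ → ℂ, h = fun y => P.eval y / Q.eval y := ⟨_, rfl⟩
  have hhx : ∀ x, P.eval x / Q.eval x = h x := fun x => by rw [hh]
  have hmh : Measurable h := by
    rw [hh]
    exact meas_h
  have hmd : Measurable (deriv h) := measurable_deriv h
  rw [← hh]
  have hA2 : ∀ S : ℂ → ℝ≥0∞, Measurable S →
      ∫⁻ x, (‖deriv h x‖ₑ * S (h x)) ^ 2 ≤ D * ∫⁻ z, S z ^ 2 := by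
    intro S hS
    have := area2 h6 hD hc hP hQ hm S hS
    rw [← hh] at this
    simp only [hhx] at this
    exact this
  have h8' := h8 D P Q hD hc hP hQ hm
  have h9' := h9 D P Q hD hc hP hQ hm
  have h10' := h10 D P Q hD hc hP hQ hm
  obtain ⟨E₀, hE₀⟩ := h5 D P Q hD hc hP hQ hm
  rw [← hh] at h8' h9' h10' hE₀
  obtain ⟨v, hvd⟩ : ∃ v : ℂ → ℂ, v = fun z => ((P - C z * Q).roots.map U).sum := ⟨_, rfl⟩
  obtain ⟨b, hbd⟩ : ∃ b : ℂ → ℂ, b = fun z => ((P - C z * Q).roots.map fun x =>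
    χ x / deriv h x).sum := ⟨_, rfl⟩
  have hvm : Measurable v := by
    rw [hvd]
    exact (h7 P Q hc hdeg).2 U hU1.continuous.measurable
  have hbm : Measurable b := by
    rw [hbd]
    exact (h7 P Q hc hdeg).2 (fun x => χ x / deriv h x) (hχ.continuous.measurable.div hmd)
  have hψm : Measurable (fun x => (ψ (h x) : ℂ)) :=
    Complex.measurable_ofReal.comp (hψ.continuous.measurable.comp hmh)
  -- the functions
  obtain ⟨V, hVd⟩ : ∃ V : ℂ → ℂ, V = fun x => conj (if Q.eval x = 0 then c else v (h x)) :=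
    ⟨_, rfl⟩
  have hVm : Measurable V := by
    rw [hVd]
    refine Complex.continuous_conj.measurable.comp (Measurable.ite ?_ measurable_const
      (hvm.comp hmh))
    exact measurableSet_eq_fun Q.continuous.measurable measurable_const
  have hVc : ∀ x, ψ (h x) ≠ 0 → ‖V x - conj c‖ ≤ B := by
    intro x hx0
    rw [hVd]
    simp only
    rw [← map_sub, RCLike.norm_conj]
    by_cases hx : Q.eval x = 0
    · rw [if_pos hx, sub_self, norm_zero]
      exact hB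
    · rw [if_neg hx, hvd]
      exact hv _ hx0
  obtain ⟨W, hWd⟩ : ∃ W : ℂ → ℂ, W = fun x => (ψ (h x) : ℂ) * (V x - conj c) := ⟨_, rfl⟩
  have hWm : Measurable W := by
    rw [hWd]
    exact hψm.mul (hVm.sub_const _)
  have hWB : ∀ x, ‖W x‖ ≤ B := by
    intro x
    rw [hWd]
    simp only
    rw [norm_mul, Complex.norm_real, Real.norm_of_nonneg (hψ1 _).1]
    by_cases hx : ψ (h x) = 0
    · rw [hx, zero_mul]
      exact hB
    · calc ψ (h x) * ‖V x - conj c‖ ≤ 1 * B :=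
          mul_le_mul (hψ1 _).2 (hVc x hx) (norm_nonneg _) zero_le_one
        _ = B := one_mul B
  -- the exceptional points
  obtain ⟨EX, hEX⟩ : ∃ EX : Finset ℂ, EX = Q.roots.toFinset ∪
    E₀.biUnion (fun z => (P - C z * Q).roots.toFinset) := ⟨_, rfl⟩
  have hroot : ∀ x, Q.eval x ≠ 0 → x ∈ (P - C (h x) * Q).roots := by
    intro x hx
    rw [mem_roots (sub_ne hD hc hm _), IsRoot.def, eval_sub, eval_mul, eval_C, ← hhx,
      div_mul_cancel₀ _ hx, sub_self]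
  have hEx : ∀ x, x ∉ EX → Q.eval x ≠ 0 ∧ h x ∉ E₀ := by
    intro x hx
    rw [hEX, Finset.mem_union, not_or] at hx
    have h1 : Q.eval x ≠ 0 := by
      intro h0
      apply hx.1
      rw [Multiset.mem_toFinset, mem_roots (q_ne hD hc hm)]
      exact h0
    refine ⟨h1, fun h2 => hx.2 ?_⟩
    rw [Finset.mem_biUnion]
    exact ⟨h x, h2, Multiset.mem_toFinset.2 (hroot x h1)⟩
  have hae : ∀ᵐ x : ℂ, x ∉ EX := by
    have := (EX.finite_toSet).measure_zero (volume : Measure ℂ)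
    rw [← compl_mem_ae_iff] at this
    exact this
  have hae0 : ∀ᵐ x : ℂ, x ∉ E₀ := by
    have := (E₀.finite_toSet).measure_zero (volume : Measure ℂ)
    rw [← compl_mem_ae_iff] at this
    exact this
  have hd1 : ∀ x, x ∉ EX → HasFDerivAt h
      ((ContinuousLinearMap.toSpanSingleton ℂ (deriv h x)).restrictScalars ℝ) x := by
    intro x hx
    obtain ⟨hQx, -⟩ := hEx x hx
    have h1 : HasDerivAt h (deriv h x) x := by
      have : DifferentiableAt ℂ h x := by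
        rw [hh]
        exact P.differentiableAt.div Q.differentiableAt hQx
      exact this.hasDerivAt
    exact (h1.hasFDerivAt).restrictScalars ℝ
  have hder : ∀ x, x ∉ EX → ∃ M : ℂ →L[ℝ] ℂ, HasFDerivAt V M x ∧
      ∀ ζ, M ζ = conj (((P - C (h x) * Q).roots.map fun x' =>
        fderiv ℝ U x' (ζ * deriv h x / deriv h x')).sum) := by
    intro x hx
    obtain ⟨hQx, hhE⟩ := hEx x hx
    obtain ⟨s1, s2, s3⟩ := hE₀ (h x) hhE
    obtain ⟨L, hL, hLz⟩ := h10' (h x) s1 s2 s3 U hU1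
    have hd2 := hd1 x hx
    rw [← hvd] at hL
    have hd3 := hL.comp x hd2
    have hd4 := ((Complex.conjCLE : ℂ ≃L[ℝ] ℂ) : ℂ →L[ℝ] ℂ).hasFDerivAt.comp x hd3
    refine ⟨_, hd4.congr_of_eventuallyEq ?_, fun ζ => ?_⟩
    · have h1 : ∀ᶠ y in 𝓝 x, Q.eval y ≠ 0 := Q.continuous.continuousAt.eventually_ne hQx
      filter_upwards [h1] with y hy
      rw [hVd]
      simp only [if_neg hy]
      rfl
    · simp only [ContinuousLinearMap.comp_apply]
      rw [hLz]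
      simp only [ContinuousLinearMap.coe_restrictScalars',
        ContinuousLinearMap.toSpanSingleton_apply, smul_eq_mul]
      rfl
  have hdzb : ∀ x, x ∉ EX → (fderiv ℝ V x 1 + Complex.I * fderiv ℝ V x Complex.I) / 2 =
      conj (deriv h x * b (h x)) := by
    intro x hx
    obtain ⟨M, hM, hMz⟩ := hder x hx
    rw [hM.fderiv, hMz, hMz]
    obtain ⟨hQx, hhE⟩ := hEx x hx
    obtain ⟨-, -, s3⟩ := hE₀ (h x) hhE
    have h1 := ms_comb (P - C (h x) * Q).roots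
      (fun x' => fderiv ℝ U x' (1 * deriv h x / deriv h x'))
      (fun x' => fderiv ℝ U x' (Complex.I * deriv h x / deriv h x'))
      (fun x' => χ x' / deriv h x') 1 (-Complex.I) (2 * deriv h x) (by
        intro x' hx'
        have h2 := lin_dz (fderiv ℝ U x') (deriv h x / deriv h x')
        have h3 := hUχ x'
        unfold dz at h3
        have h4 : fderiv ℝ U x' 1 - Complex.I * fderiv ℝ U x' Complex.I = 2 * χ x' := by
          rw [← h3]
          ring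
        rw [h4] at h2
        have e1 : 1 * deriv h x / deriv h x' = deriv h x / deriv h x' := by rw [one_mul]
        have e2 : Complex.I * deriv h x / deriv h x' = deriv h x / deriv h x' * Complex.I := by
          ring
        rw [e1, e2]
        linear_combination h2)
    have h5 := congrArg (starRingEnd ℂ) h1
    simp only [map_add, map_mul, map_neg, Complex.conj_I, map_one, map_ofNat, neg_neg,
      one_mul] at h5
    have h6 : conj (b (h x)) = conj (((P - C (h x) * Q).roots.map fun x' =>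
        χ x' / deriv h x').sum) := by rw [hbd]
    rw [map_mul, h6]
    simp only [one_mul]
    rw [h5]
    ring
  -- the L² bound
  obtain ⟨S, hS⟩ : ∃ S : ℂ → ℝ≥0∞, S = fun z => ((P - C z * Q).roots.map fun x' =>
    ‖fderiv ℝ U x'‖ₑ / ‖deriv h x'‖ₑ).sum := ⟨_, rfl⟩
  have hSm : Measurable S := by
    rw [hS]
    exact (h7 P Q hc hdeg).1 (fun x' => ‖fderiv ℝ U x'‖ₑ / ‖deriv h x'‖ₑ)
      ((measurable_fderiv ℝ U).enorm.div hmd.enorm)
  have hnor : ∀ x, x ∉ EX → ‖fderiv ℝ V x‖ₑ ≤ ‖deriv h x‖ₑ * S (h x) := by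
    intro x hx
    obtain ⟨M, hM, hMz⟩ := hder x hx
    rw [hM.fderiv]
    obtain ⟨hQx, hhE⟩ := hEx x hx
    obtain ⟨-, -, s3⟩ := hE₀ (h x) hhE
    obtain ⟨r1, r2⟩ := ms_ofReal (P - C (h x) * Q).roots
      (fun x' => ‖fderiv ℝ U x'‖ / ‖deriv h x'‖)
      (fun x' => ‖fderiv ℝ U x'‖ₑ / ‖deriv h x'‖ₑ) (fun x' => by positivity) (by
        intro x' hx'
        rw [ENNReal.ofReal_div_of_pos (norm_pos_iff.2 (s3 x' hx').2), ofReal_norm_eq_enorm,
          ofReal_norm_eq_enorm])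
    have h1 : ‖M‖ ≤ ‖deriv h x‖ * ((P - C (h x) * Q).roots.map
        fun x' => ‖fderiv ℝ U x'‖ / ‖deriv h x'‖).sum := by
      refine ContinuousLinearMap.opNorm_le_bound _ (mul_nonneg (norm_nonneg _) r1) fun ζ => ?_
      rw [hMz, RCLike.norm_conj]
      have h2 := ms_norm (P - C (h x) * Q).roots
        (fun x' => fderiv ℝ U x' (ζ * deriv h x / deriv h x'))
        (fun x' => ‖fderiv ℝ U x'‖ / ‖deriv h x'‖) (‖deriv h x‖ * ‖ζ‖) (by
          intro x' hx'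
          refine ((fderiv ℝ U x').le_opNorm _).trans (le_of_eq ?_)
          rw [norm_div, norm_mul]
          ring)
      refine h2.trans (le_of_eq ?_)
      ring
    calc ‖M‖ₑ = ENNReal.ofReal ‖M‖ := (ofReal_norm_eq_enorm M).symm
      _ ≤ ENNReal.ofReal (‖deriv h x‖ * ((P - C (h x) * Q).roots.map
          fun x' => ‖fderiv ℝ U x'‖ / ‖deriv h x'‖).sum) := ENNReal.ofReal_le_ofReal h1
      _ = ‖deriv h x‖ₑ * ENNReal.ofReal ((P - C (h x) * Q).roots.map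
          fun x' => ‖fderiv ℝ U x'‖ / ‖deriv h x'‖).sum := by
          rw [ENNReal.ofReal_mul (norm_nonneg _), ofReal_norm_eq_enorm]
      _ ≤ _ := by
          rw [hS]
          exact mul_le_mul_right r2 _
  have hVL : ∫⁻ x, ‖fderiv ℝ V x‖ₑ ^ 2 < ⊤ := by
    calc ∫⁻ x, ‖fderiv ℝ V x‖ₑ ^ 2 ≤ ∫⁻ x, (‖deriv h x‖ₑ * S (h x)) ^ 2 := by
          refine lintegral_mono_ae ?_
          filter_upwards [hae] with x hx
          exact pow_le_pow_left' (hnor x hx) 2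
      _ ≤ D * ∫⁻ z, S z ^ 2 := hA2 S hSm
      _ ≤ D * (D * ∫⁻ x, ‖fderiv ℝ U x‖ₑ ^ 2) := by
          refine mul_le_mul_right ?_ _
          rw [hS]
          exact (h8' (fun x => ‖fderiv ℝ U x‖ₑ) (measurable_fderiv ℝ U).enorm).1
      _ < ⊤ := ENNReal.mul_lt_top (ENNReal.natCast_lt_top D)
          (ENNReal.mul_lt_top (ENNReal.natCast_lt_top D) hUL)
  -- the cut-off
  obtain ⟨gr, hgr⟩ : ∃ gr : ℂ → ℝ≥0∞, gr = fun z => ‖fderiv ℝ ψ z‖ₑ := ⟨_, rfl⟩
  have hgrm : Measurable gr := by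
    rw [hgr]
    exact (measurable_fderiv ℝ ψ).enorm
  have hcut : ∀ x, x ∉ EX → ∃ N : ℂ →L[ℝ] ℂ, HasFDerivAt (fun x => (ψ (h x) : ℂ)) N x ∧
      ‖N‖ₑ ≤ ‖deriv h x‖ₑ * gr (h x) ∧ (ψ (h x) = 0 → N = 0) := by
    intro x hx
    have hd2 := hd1 x hx
    have hd3 := (hψ.differentiable one_ne_zero (h x)).hasFDerivAt.comp x hd2
    have hd4 := (Complex.ofRealCLM : ℝ →L[ℝ] ℂ).hasFDerivAt.comp x hd3
    refine ⟨_, hd4, ?_, ?_⟩
    · have h1 : ‖(Complex.ofRealCLM : ℝ →L[ℝ] ℂ).comp ((fderiv ℝ ψ (h x)).comp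
          ((ContinuousLinearMap.toSpanSingleton ℂ (deriv h x)).restrictScalars ℝ))‖ ≤
          ‖deriv h x‖ * ‖fderiv ℝ ψ (h x)‖ := by
        refine ContinuousLinearMap.opNorm_le_bound _ (by positivity) fun ζ => ?_
        simp only [ContinuousLinearMap.comp_apply, ContinuousLinearMap.coe_restrictScalars',
          ContinuousLinearMap.toSpanSingleton_apply, smul_eq_mul, Complex.ofRealCLM_apply]
        rw [Complex.norm_real]
        refine ((fderiv ℝ ψ (h x)).le_opNorm _).trans (le_of_eq ?_)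
        rw [norm_mul]
        ring
      rw [hgr]
      simp only
      rw [← ofReal_norm_eq_enorm, ← ofReal_norm_eq_enorm, ← ofReal_norm_eq_enorm,
        ← ENNReal.ofReal_mul (norm_nonneg _)]
      exact ENNReal.ofReal_le_ofReal h1
    · intro h0
      have h1 : IsLocalMin ψ (h x) := by
        refine Filter.Eventually.of_forall fun y => ?_
        rw [h0]
        exact (hψ1 y).1
      rw [h1.fderiv_eq_zero]
      ext ζ
      simp
  -- the derivative of W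
  have hWder : ∀ x, x ∉ EX → ∃ N : ℂ →L[ℝ] ℂ, HasFDerivAt (fun x => (ψ (h x) : ℂ)) N x ∧
      ‖N‖ₑ ≤ ‖deriv h x‖ₑ * gr (h x) ∧ (ψ (h x) = 0 → N = 0) ∧ DifferentiableAt ℝ W x ∧
      ∀ ζ, fderiv ℝ W x ζ = (ψ (h x) : ℂ) * fderiv ℝ V x ζ + (V x - conj c) * N ζ := by
    intro x hx
    obtain ⟨N, hN, hN1, hN2⟩ := hcut x hx
    obtain ⟨M, hM, -⟩ := hder x hx
    have h1 := hN.mul (hM.sub_const (conj c))
    have h2 : HasFDerivAt W ((ψ (h x) : ℂ) • M + (V x - conj c) • N) x := by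
      rw [hWd]
      exact h1
    refine ⟨N, hN, hN1, hN2, h2.differentiableAt, fun ζ => ?_⟩
    rw [h2.fderiv, hM.fderiv]
    rfl
  have hWL : ∫⁻ x, ‖fderiv ℝ W x‖ₑ ^ 2 < ⊤ := by
    calc ∫⁻ x, ‖fderiv ℝ W x‖ₑ ^ 2 ≤ ∫⁻ x, (3 * ‖fderiv ℝ V x‖ₑ ^ 2 +
          3 * (ENNReal.ofReal B ^ 2 * (‖deriv h x‖ₑ * gr (h x)) ^ 2)) := by
          refine lintegral_mono_ae ?_
          filter_upwards [hae] with x hx
          obtain ⟨N, -, hN1, hN2, -, hN3⟩ := hWder x hx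
          have h1 : ‖fderiv ℝ W x‖ ≤ ‖fderiv ℝ V x‖ + B * ‖N‖ := by
            refine ContinuousLinearMap.opNorm_le_bound _ (by positivity) fun ζ => ?_
            rw [hN3]
            refine (norm_add_le _ _).trans ?_
            rw [norm_mul, norm_mul, Complex.norm_real, Real.norm_of_nonneg (hψ1 _).1, add_mul]
            refine add_le_add ?_ ?_
            · calc ψ (h x) * ‖fderiv ℝ V x ζ‖ ≤ 1 * (‖fderiv ℝ V x‖ * ‖ζ‖) :=
                  mul_le_mul (hψ1 _).2 ((fderiv ℝ V x).le_opNorm ζ) (norm_nonneg _) zero_le_one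
                _ = _ := one_mul _
            · by_cases h0 : ψ (h x) = 0
              · rw [hN2 h0]
                simp
              · calc ‖V x - conj c‖ * ‖N ζ‖ ≤ B * (‖N‖ * ‖ζ‖) :=
                    mul_le_mul (hVc x h0) (N.le_opNorm ζ) (norm_nonneg _) hB
                  _ = _ := by ring
          have h2 : ‖fderiv ℝ W x‖ₑ ≤ ‖fderiv ℝ V x‖ₑ +
              ENNReal.ofReal B * (‖deriv h x‖ₑ * gr (h x)) := by
            calc ‖fderiv ℝ W x‖ₑ = ENNReal.ofReal ‖fderiv ℝ W x‖ := (ofReal_norm_eq_enorm _).symm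
              _ ≤ ENNReal.ofReal (‖fderiv ℝ V x‖ + B * ‖N‖) := ENNReal.ofReal_le_ofReal h1
              _ = ‖fderiv ℝ V x‖ₑ + ENNReal.ofReal B * ‖N‖ₑ := by
                rw [ENNReal.ofReal_add (norm_nonneg _) (by positivity), ENNReal.ofReal_mul hB,
                  ofReal_norm_eq_enorm, ofReal_norm_eq_enorm]
              _ ≤ _ := by gcongr
          calc ‖fderiv ℝ W x‖ₑ ^ 2 ≤ (‖fderiv ℝ V x‖ₑ +
                ENNReal.ofReal B * (‖deriv h x‖ₑ * gr (h x))) ^ 2 := pow_le_pow_left' h2 2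
            _ ≤ 3 * ‖fderiv ℝ V x‖ₑ ^ 2 +
                3 * (ENNReal.ofReal B * (‖deriv h x‖ₑ * gr (h x))) ^ 2 := add_sq _ _
            _ = _ := by rw [mul_pow (ENNReal.ofReal B)]
      _ = (∫⁻ x, 3 * ‖fderiv ℝ V x‖ₑ ^ 2) +
          ∫⁻ x, 3 * (ENNReal.ofReal B ^ 2 * (‖deriv h x‖ₑ * gr (h x)) ^ 2) :=
            lintegral_add_left (((measurable_fderiv ℝ V).enorm.pow_const 2).const_mul 3) _
      _ = 3 * (∫⁻ x, ‖fderiv ℝ V x‖ₑ ^ 2) +
          3 * (ENNReal.ofReal B ^ 2 * ∫⁻ x, (‖deriv h x‖ₑ * gr (h x)) ^ 2) := by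
            have hm1 : Measurable fun x => (‖deriv h x‖ₑ * gr (h x)) ^ 2 :=
              (hmd.enorm.mul (hgrm.comp hmh)).pow_const 2
            rw [lintegral_const_mul _ ((measurable_fderiv ℝ V).enorm.pow_const 2),
              lintegral_const_mul _ (hm1.const_mul _), lintegral_const_mul _ hm1]
      _ < ⊤ := by
          refine ENNReal.add_lt_top.2 ⟨ENNReal.mul_lt_top (by norm_num) hVL,
            ENNReal.mul_lt_top (by norm_num) (ENNReal.mul_lt_top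
              (ENNReal.pow_lt_top ENNReal.ofReal_lt_top) (lt_of_le_of_lt (hA2 gr hgrm)
                (ENNReal.mul_lt_top (ENNReal.natCast_lt_top D) ?_)))⟩
          rw [hgr]
          exact hψL
  have hWe : ∀ e : ℂ, ‖e‖ₑ = 1 → ∫⁻ x, ‖fderiv ℝ W x e‖ₑ ^ 2 < ⊤ := by
    intro e he
    refine lt_of_le_of_lt (lintegral_mono fun x => ?_) hWL
    refine pow_le_pow_left' ?_ 2
    have h1 := (fderiv ℝ W x).le_opENorm e
    rw [he, mul_one] at h1
    exact h1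
  have hχL : ∫⁻ x, ‖χ x‖ₑ ^ 2 < ⊤ := by
    have h1 : Integrable (fun x => ‖χ x‖ ^ 2) :=
      (hχ.continuous.norm.pow 2).integrable_of_hasCompactSupport (by
        refine hχc.norm.comp_left (g := fun t : ℝ => t ^ 2) ?_
        norm_num)
    have h2 := h1.2
    unfold HasFiniteIntegral at h2
    refine lt_of_le_of_lt (le_of_eq ?_) h2
    refine lintegral_congr fun x => ?_
    rw [enorm_pow, enorm_norm]
  have hbL : ∫⁻ z, ‖b z‖ₑ ^ 2 < ⊤ := by
    calc ∫⁻ z, ‖b z‖ₑ ^ 2 ≤ ∫⁻ z, ((P - C z * Q).roots.map fun x =>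
          ‖χ x‖ₑ / ‖deriv h x‖ₑ).sum ^ 2 := by
          refine lintegral_mono fun z => pow_le_pow_left' ?_ 2
          rw [hbd]
          exact ms_enorm _ _ _ fun x _ => enorm_div_le _ _
      _ ≤ D * ∫⁻ x, ‖χ x‖ₑ ^ 2 := (h8' (fun x => ‖χ x‖ₑ) hχ.continuous.measurable.enorm).1
      _ < ⊤ := ENNReal.mul_lt_top (ENNReal.natCast_lt_top D) hχL
  -- integration by parts
  have hI1 : ‖(1 : ℂ)‖ₑ = 1 := by
    rw [← ofReal_norm_eq_enorm, norm_one, ENNReal.ofReal_one]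
  have hII : ‖Complex.I‖ₑ = 1 := by
    rw [← ofReal_norm_eq_enorm, Complex.norm_I, ENNReal.ofReal_one]
  have hχ1 : ContDiff ℝ 1 χ := hχ.of_le (by norm_num)
  have hloc : ∀ R : ℝ, ∫⁻ z in Metric.ball (0 : ℂ) R, ‖fderiv ℝ W z‖ₑ < ⊤ := by
    intro R
    calc ∫⁻ z in Metric.ball (0 : ℂ) R, ‖fderiv ℝ W z‖ₑ ≤
        ∫⁻ z in Metric.ball (0 : ℂ) R, (1 + ‖fderiv ℝ W z‖ₑ ^ 2) := by
          refine lintegral_mono fun z => ?_
          have h1 := mul_le_sq (1 : ℝ≥0∞) ‖fderiv ℝ W z‖ₑ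
          rw [one_mul, one_pow] at h1
          exact h1
      _ = (∫⁻ z in Metric.ball (0 : ℂ) R, (1 : ℝ≥0∞)) +
          ∫⁻ z in Metric.ball (0 : ℂ) R, ‖fderiv ℝ W z‖ₑ ^ 2 :=
            lintegral_add_left measurable_const _
      _ < ⊤ := by
          refine ENNReal.add_lt_top.2 ⟨?_, lt_of_le_of_lt (setLIntegral_le_lintegral _ _) hWL⟩
          rw [setLIntegral_one]
          exact measure_ball_lt_top
  have hibp := fun e : ℂ => h11 χ W EX B hχ1 hχc hWm hWB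
    (fun z hz => by
      obtain ⟨N, -, -, -, hN, -⟩ := hWder z hz
      exact hN) hloc e
  have hAi : ∀ e : ℂ, Integrable (fun z => fderiv ℝ χ z e) := fun e =>
    ((hχ1.continuous_fderiv one_ne_zero).clm_apply continuous_const).integrable_of_hasCompactSupport
      ((hχc.fderiv ℝ).comp_left (g := fun L : ℂ →L[ℝ] ℂ => L e) rfl)
  have hAV : ∀ e : ℂ, Integrable (fun z => fderiv ℝ χ z e * W z) := by
    intro e
    refine ((hAi e).norm.mul_const B).mono'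
      ((hAi e).aestronglyMeasurable.mul hWm.aestronglyMeasurable) (ae_of_all _ fun z => ?_)
    rw [norm_mul]
    exact mul_le_mul_of_nonneg_left (hWB z) (norm_nonneg _)
  obtain ⟨H, hH⟩ : ∃ H : ℂ → ℂ, H = fun x => χ x * ((ψ (h x) : ℂ) *
    conj (deriv h x * b (h x))) := ⟨_, rfl⟩
  have hHi : Integrable H := by
    rw [hH]
    refine int_mul (g := fun x => (ψ (h x) : ℂ) * conj (deriv h x * b (h x)))
      hχ.continuous.measurable
      (hψm.mul (Complex.continuous_conj.measurable.comp (hmd.mul (hbm.comp hmh)))) hχL ?_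
    have e1 : ∫⁻ x, ‖(ψ (h x) : ℂ) * conj (deriv h x * b (h x))‖ₑ ^ 2 ≤
        ∫⁻ x, (‖deriv h x‖ₑ * ‖b (h x)‖ₑ) ^ 2 := by
      refine lintegral_mono fun x => pow_le_pow_left' ?_ 2
      rw [← enorm_mul, ← ofReal_norm_eq_enorm, ← ofReal_norm_eq_enorm, norm_mul, RCLike.norm_conj,
        Complex.norm_real, Real.norm_of_nonneg (hψ1 _).1]
      refine ENNReal.ofReal_le_ofReal ?_
      calc ψ (h x) * ‖deriv h x * b (h x)‖ ≤ 1 * ‖deriv h x * b (h x)‖ :=
            mul_le_mul_of_nonneg_right (hψ1 _).2 (norm_nonneg _)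
        _ = _ := one_mul _
    exact lt_of_le_of_lt (e1.trans (hA2 (fun z => ‖b z‖ₑ) hbm.enorm))
      (ENNReal.mul_lt_top (ENNReal.natCast_lt_top D) hbL)
  have hI : ∀ e : ℂ, ‖e‖ₑ = 1 → Integrable (fun z => χ z * fderiv ℝ W z e) := fun e he =>
    int_mul hχ.continuous.measurable (measurable_fderiv_apply_const ℝ W e) hχL (hWe e he)
  obtain ⟨A, hA⟩ : ∃ A : ℂ → ℂ, A = fun x => (χ x * fderiv ℝ W x 1 + Complex.I * (χ x *
        fderiv ℝ W x Complex.I)) / 2 := ⟨_, rfl⟩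
  have hAint : Integrable A := by
    rw [hA]
    exact ((hI 1 hI1).add ((hI Complex.I hII).const_mul Complex.I)).div_const 2
  have hAval : ∫ x, A x = -∫ x, dzb χ x * W x := by
    have e2 : ∫ x, A x =
        ((∫ x, χ x * fderiv ℝ W x 1) + Complex.I * ∫ x, χ x * fderiv ℝ W x Complex.I) / 2 := by
      rw [hA, integral_div, integral_add (hI 1 hI1) ((hI Complex.I hII).const_mul Complex.I),
        integral_const_mul]
    have e5 : ∫ x, dzb χ x * W x =
        ((∫ x, fderiv ℝ χ x 1 * W x) + Complex.I *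
          ∫ x, fderiv ℝ χ x Complex.I * W x) / 2 := by
      have h1 : (fun x => dzb χ x * W x) = fun x =>
          (fderiv ℝ χ x 1 * W x + Complex.I *
            (fderiv ℝ χ x Complex.I * W x)) / 2 := by
        funext x
        unfold dzb
        ring
      rw [h1, integral_div, integral_add (hAV 1)
        ((hAV Complex.I).const_mul Complex.I), integral_const_mul]
    rw [e2, e5, hibp 1, hibp Complex.I]
    ring
  -- the error
  have hT : ∀ x, x ∉ EX → ‖A x - H x‖ₑ ≤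
      ENNReal.ofReal B * (‖χ x‖ₑ * (‖deriv h x‖ₑ * gr (h x))) := by
    intro x hx
    obtain ⟨N, -, hN1, hN2, -, hN3⟩ := hWder x hx
    have e1 : A x - H x = χ x * ((V x - conj c) * ((N 1 + Complex.I * N Complex.I) / 2)) := by
      rw [hA, hH]
      simp only
      rw [hN3, hN3, ← hdzb x hx]
      ring
    have e2 : ‖(N 1 + Complex.I * N Complex.I) / 2‖ ≤ ‖N‖ := by
      rw [norm_div, Complex.norm_ofNat]
      have h1 := norm_add_le (N 1) (Complex.I * N Complex.I)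
      rw [norm_mul, Complex.norm_I, one_mul] at h1
      have h2 := N.le_opNorm 1
      have h3 := N.le_opNorm Complex.I
      rw [norm_one, mul_one] at h2
      rw [Complex.norm_I, mul_one] at h3
      linarith
    have e3 : ‖A x - H x‖ ≤ B * (‖χ x‖ * ‖N‖) := by
      rw [e1, norm_mul, norm_mul]
      by_cases h0 : ψ (h x) = 0
      · rw [hN2 h0]
        simp
      · calc ‖χ x‖ * (‖V x - conj c‖ * ‖(N 1 + Complex.I * N Complex.I) / 2‖) ≤
            ‖χ x‖ * (B * ‖N‖) := mul_le_mul_of_nonneg_left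
              (mul_le_mul (hVc x h0) e2 (norm_nonneg _) hB) (norm_nonneg _)
          _ = _ := by ring
    calc ‖A x - H x‖ₑ = ENNReal.ofReal ‖A x - H x‖ := (ofReal_norm_eq_enorm _).symm
      _ ≤ ENNReal.ofReal (B * (‖χ x‖ * ‖N‖)) := ENNReal.ofReal_le_ofReal e3
      _ = ENNReal.ofReal B * (‖χ x‖ₑ * ‖N‖ₑ) := by
        rw [ENNReal.ofReal_mul hB, ENNReal.ofReal_mul (norm_nonneg _), ofReal_norm_eq_enorm,
          ofReal_norm_eq_enorm]
      _ ≤ _ := by gcongr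
  have hTi : ∫⁻ x, ‖A x - H x‖ₑ ≤ ENNReal.ofReal B * (ENNReal.ofReal l * (∫⁻ z, ‖χ z‖ₑ ^ 2) +
        ENNReal.ofReal l⁻¹ * (D * ∫⁻ z, ‖fderiv ℝ ψ z‖ₑ ^ 2)) := by
    have hm0 : Measurable fun x => ‖χ x‖ₑ ^ 2 := hχ.continuous.measurable.enorm.pow_const 2
    have hm1 : Measurable fun x => (‖deriv h x‖ₑ * gr (h x)) ^ 2 :=
      (hmd.enorm.mul (hgrm.comp hmh)).pow_const 2
    calc ∫⁻ x, ‖A x - H x‖ₑ ≤ ∫⁻ x, ENNReal.ofReal B * (ENNReal.ofReal l * ‖χ x‖ₑ ^ 2 +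
          ENNReal.ofReal l⁻¹ * (‖deriv h x‖ₑ * gr (h x)) ^ 2) := by
          refine lintegral_mono_ae ?_
          filter_upwards [hae] with x hx
          exact (hT x hx).trans (mul_le_mul_right (amgm l hl _ _) _)
      _ = ENNReal.ofReal B * (ENNReal.ofReal l * (∫⁻ z, ‖χ z‖ₑ ^ 2) +
          ENNReal.ofReal l⁻¹ * ∫⁻ x, (‖deriv h x‖ₑ * gr (h x)) ^ 2) := by
          have hm2 : Measurable fun x => ENNReal.ofReal l * ‖χ x‖ₑ ^ 2 :=
            hm0.const_mul _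
          rw [lintegral_const_mul' _ _ ENNReal.ofReal_ne_top,
            lintegral_add_left hm2, lintegral_const_mul' _ _ ENNReal.ofReal_ne_top,
            lintegral_const_mul' _ _ ENNReal.ofReal_ne_top]
      _ ≤ _ := by
          have h1 := hA2 gr hgrm
          rw [hgr] at h1
          rw [hgr]
          gcongr
  have hHint : ‖∫ x, H x‖ₑ ≤ ENNReal.ofReal B * ((∫⁻ z, ‖dzb χ z‖ₑ) +
      (ENNReal.ofReal l * (∫⁻ z, ‖χ z‖ₑ ^ 2) +
        ENNReal.ofReal l⁻¹ * (D * ∫⁻ z, ‖fderiv ℝ ψ z‖ₑ ^ 2))) := by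
    have e1 : ∫ x, H x = -(∫ x, dzb χ x * W x) - ∫ x, (A x - H x) := by
      rw [integral_sub hAint hHi, hAval]
      ring
    rw [e1, mul_add]
    have e2 : ‖∫ x, dzb χ x * W x‖ₑ ≤ ENNReal.ofReal B * ∫⁻ z, ‖dzb χ z‖ₑ := by
      refine (enorm_integral_le_lintegral_enorm _).trans ?_
      rw [← lintegral_const_mul' _ _ ENNReal.ofReal_ne_top]
      refine lintegral_mono fun z => ?_
      rw [enorm_mul, mul_comm]
      gcongr
      rw [← ofReal_norm_eq_enorm]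
      exact ENNReal.ofReal_le_ofReal (hWB z)
    have e3 : ‖∫ x, (A x - H x)‖ₑ ≤ _ := (enorm_integral_le_lintegral_enorm _).trans hTi
    have e4 : ‖-(∫ x, dzb χ x * W x) - ∫ x, (A x - H x)‖ₑ ≤
        ‖∫ x, dzb χ x * W x‖ₑ + ‖∫ x, (A x - H x)‖ₑ := by
      rw [sub_eq_add_neg]
      refine (enorm_add_le _ _).trans ?_
      rw [enorm_neg, enorm_neg]
    exact e4.trans (add_le_add e2 e3)
  -- the area formula
  obtain ⟨hΦi, hΦ⟩ := h9' H hHi
  have hΦe : ∀ z, z ∉ E₀ → ((P - C z * Q).roots.map fun x =>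
      H x / (deriv h x * conj (deriv h x))).sum = (ψ z : ℂ) * (b z * conj (b z)) := by
    intro z hz
    obtain ⟨-, -, s3⟩ := hE₀ z hz
    have h1 : ((P - C z * Q).roots.map fun x => H x / (deriv h x * conj (deriv h x))) =
        (P - C z * Q).roots.map fun x => χ x / deriv h x * ((ψ z : ℂ) * conj (b z)) := by
      refine Multiset.map_congr rfl fun x hx => ?_
      have h2 := (s3 x hx).2
      have h3 : h x = z := by
        rw [← hhx]
        exact (root_val hc hx).2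
      have h4 : conj (deriv h x) ≠ 0 := by
        rw [Ne, map_eq_zero]
        exact h2
      rw [hH]
      simp only
      rw [h3, map_mul]
      field_simp
    rw [h1, Multiset.sum_map_mul_right, hbd]
    ring
  have hbb : ∀ z, (ψ z : ℂ) * (b z * conj (b z)) = ((ψ z * ‖b z‖ ^ 2 : ℝ) : ℂ) := by
    intro z
    rw [Complex.mul_conj']
    push_cast
    rfl
  have hbn : ∀ z, 0 ≤ ψ z * ‖b z‖ ^ 2 := fun z => mul_nonneg (hψ1 z).1 (by positivity)
  have hbi : Integrable (fun z => (ψ z : ℂ) * (b z * conj (b z))) := by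
    refine hΦi.congr ?_
    filter_upwards [hae0] with z hz
    exact hΦe z hz
  have hbI : ∫ z, (ψ z : ℂ) * (b z * conj (b z)) = ∫ x, H x := by
    rw [← hΦ]
    refine integral_congr_ae ?_
    filter_upwards [hae0] with z hz
    exact (hΦe z hz).symm
  have hbr : Integrable (fun z => ψ z * ‖b z‖ ^ 2) := by
    refine hbi.norm.congr (ae_of_all _ fun z => ?_)
    simp only
    rw [hbb, Complex.norm_real, Real.norm_of_nonneg (hbn z)]
  have hgo : ∫⁻ z, ENNReal.ofReal (ψ z) * ‖b z‖ₑ ^ 2 = ‖∫ x, H x‖ₑ := by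
    have h1 : ((∫ z, ψ z * ‖b z‖ ^ 2 : ℝ) : ℂ) = ∫ x, H x := by
      rw [← hbI, ← integral_complex_ofReal]
      refine integral_congr_ae (ae_of_all _ fun z => ?_)
      exact (hbb z).symm
    rw [← h1, ← ofReal_norm_eq_enorm, Complex.norm_real,
      Real.norm_of_nonneg (integral_nonneg hbn),
      ofReal_integral_eq_lintegral_ofReal hbr (ae_of_all _ hbn)]
    refine lintegral_congr fun z => ?_
    rw [ENNReal.ofReal_mul (hψ1 z).1, ENNReal.ofReal_pow (norm_nonneg _), ofReal_norm_eq_enorm]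
  have hb' : ∀ z, ((P - C z * Q).roots.map fun x => χ x / deriv h x).sum = b z := fun z => by
    rw [hbd]
  simp only [hb']
  rw [hgo]
  exact hHint


theorem cd_nn (v w : ℂ × ℂ) : 0 ≤ cd v w := by
  unfold cd
  positivity

theorem cd_le2 (v w : ℂ × ℂ) : cd v w ≤ 2 := by
  unfold cd wd
  refine div_le_of_le_mul₀ (by positivity) (by norm_num) ?_
  have a1 := norm_fst_le v
  have a2 := norm_snd_le v
  have a3 := norm_fst_le w
  have a4 := norm_snd_le w
  calc ‖v.1 * w.2 - v.2 * w.1‖ ≤ ‖v.1 * w.2‖ + ‖v.2 * w.1‖ := norm_sub_le _ _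
    _ = ‖v.1‖ * ‖w.2‖ + ‖v.2‖ * ‖w.1‖ := by rw [norm_mul, norm_mul]
    _ ≤ ‖v‖ * ‖w‖ + ‖v‖ * ‖w‖ := by gcongr
    _ = 2 * (‖v‖ * ‖w‖) := by ring

theorem om_le (E : Finset (OnePoint ℂ)) (z : ℂ) : om E z ≤ 2 ^ E.card := by
  unfold om omh
  refine (Finset.prod_le_prod (fun _ _ => cd_nn _ _) (fun _ _ => cd_le2 _ _)).trans ?_
  rw [Finset.prod_const]

theorem om_meas (E : Finset (OnePoint ℂ)) : Measurable (om E) := by
  unfold om omh
  refine Finset.measurable_prod _ fun e _ => ?_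
  unfold cd wd
  fun_prop

theorem log_om (E : Finset (OnePoint ℂ)) (z : ℂ) (A : ℝ) (hA : 0 ≤ A)
    (h : Real.exp (-A) ≤ om E z) :
    om E z ≠ 0 ∧ |Real.log (om E z)| ≤ A + E.card * Real.log 2 := by
  have h0 : 0 < om E z := (Real.exp_pos _).trans_le h
  have hl2 : 0 ≤ Real.log 2 := Real.log_nonneg (by norm_num)
  have h1 : -A ≤ Real.log (om E z) := by
    rw [← Real.log_exp (-A)]
    exact Real.log_le_log (Real.exp_pos _) h
  have h2 : Real.log (om E z) ≤ E.card * Real.log 2 := by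
    rw [← Real.log_pow]
    exact Real.log_le_log h0 (om_le E z)
  have h3 : 0 ≤ (E.card : ℝ) * Real.log 2 := by positivity
  refine ⟨h0.ne', abs_le.2 ⟨by linarith, by linarith⟩⟩

theorem fin1 (χ : ℂ → ℂ) (hχ : ContDiff ℝ 2 χ) (hχc : HasCompactSupport χ) :
    ∫⁻ z, ‖dzb χ z‖ₑ ≠ ⊤ := by
  have hcf : Continuous (fderiv ℝ χ) := hχ.continuous_fderiv (by norm_num)
  have hcs : HasCompactSupport (fderiv ℝ χ) := hχc.fderiv ℝ
  have hds : HasCompactSupport (dzb χ) :=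
    hcs.comp_left (g := fun L : ℂ →L[ℝ] ℂ => (L 1 + Complex.I * L Complex.I) / 2) (by simp)
  have hdc : Continuous (dzb χ) := by
    unfold dzb
    exact ((hcf.clm_apply continuous_const).add
      (continuous_const.mul (hcf.clm_apply continuous_const))).div_const _
  have h3 : Integrable (dzb χ) volume := hdc.integrable_of_hasCompactSupport hds
  exact h3.2.ne

theorem fin2 (χ : ℂ → ℂ) (hχ : ContDiff ℝ 2 χ) (hχc : HasCompactSupport χ) :
    ∫⁻ z, ‖χ z‖ₑ ^ 2 ≠ ⊤ := by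
  have h1 : HasCompactSupport (fun z => χ z * χ z) := hχc.mul_left
  have h2 : Continuous (fun z => χ z * χ z) := hχ.continuous.mul hχ.continuous
  have h3 : Integrable (fun z => χ z * χ z) volume := h2.integrable_of_hasCompactSupport h1
  have h4 : (fun z => ‖χ z‖ₑ ^ 2) = fun z => ‖χ z * χ z‖ₑ := by
    funext z
    rw [enorm_mul, sq]
  rw [h4]
  exact h3.2.ne

theorem calcu (C1 C N1 N2 s dn : ℝ) (hC1 : 0 ≤ C1) (hC : 1 ≤ C) (hN1 : 0 ≤ N1) (hs : 0 < s)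
    (hs1 : s ≤ 1) (hdn : 0 < dn) :
    C1 * (C + 2) * (s ^ 2 * dn) * (N1 + (s⁻¹ * N2 + s * (dn * (C / (s ^ 2 * dn))))) ≤
      C1 * (C + 2) * (N1 + N2 + C) * s * dn := by
  have e1 : s * (dn * (C / (s ^ 2 * dn))) = s⁻¹ * C := by
    field_simp
  have e2 : N1 ≤ s⁻¹ * N1 := by
    have : 1 ≤ s⁻¹ := (one_le_inv₀ hs).2 hs1
    nlinarith
  rw [e1]
  calc C1 * (C + 2) * (s ^ 2 * dn) * (N1 + (s⁻¹ * N2 + s⁻¹ * C)) ≤
        C1 * (C + 2) * (s ^ 2 * dn) * (s⁻¹ * N1 + (s⁻¹ * N2 + s⁻¹ * C)) := by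
        gcongr
    _ = C1 * (C + 2) * (N1 + N2 + C) * s * dn := by
        field_simp
        ring

theorem pf_BBE (h1 : T_IT) (h2 : T_GRN) (h3 : T_UNE) (h4 : T_CP) (h5 : T_SIM) (h6 : T_ARE)
    (h7 : T_MEA) (h8 : T_CON) (h9 : T_INT) (h10 : T_DV) (h11 : T_IBP) (h12 : T_CUT) : T_BBE := by
  intro d hd g E κ hg χ hχ hχc
  obtain ⟨G, hG⟩ := h2 d hd g
  obtain ⟨ρ, hρ, hU1, hUχ, -, hUL⟩ := h4 χ hχ hχc
  obtain ⟨C1, hC1, hu⟩ := h3 d hd g E κ hg G hG ρ hρ
  obtain ⟨C, hC, hcut⟩ := h12 E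
  obtain ⟨N1, hN1, hN1e⟩ : ∃ N1 : ℝ, 0 ≤ N1 ∧ ∫⁻ z, ‖dzb χ z‖ₑ = ENNReal.ofReal N1 :=
    ⟨_, ENNReal.toReal_nonneg, (ENNReal.ofReal_toReal (fin1 χ hχ hχc)).symm⟩
  obtain ⟨N2, hN2, hN2e⟩ : ∃ N2 : ℝ, 0 ≤ N2 ∧ ∫⁻ z, ‖χ z‖ₑ ^ 2 = ENNReal.ofReal N2 :=
    ⟨_, ENNReal.toReal_nonneg, (ENNReal.ofReal_toReal (fin2 χ hχ hχc)).symm⟩
  have hd0 : (0 : ℝ) < d := by
    have : 0 < d := by omega
    exact_mod_cast this
  have hd1 : (1 : ℝ) < d := by
    have : 1 < d := by omega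
    exact_mod_cast this
  have hκ : 0 ≤ κ := by linarith [hg.1]
  have hl2 : 0 ≤ Real.log 2 := Real.log_nonneg (by norm_num)
  refine ⟨C1 * (C + 2) * (N1 + N2 + C), by positivity, fun ε hε hε1 => ?_⟩
  obtain ⟨n1, hn1⟩ := eventually_atTop.1 ((tendsto_pow_atTop_atTop_of_one_lt hd1).eventually_ge_atTop
    ((C + E.card * Real.log 2) / ε))
  have hκd : κ / d < 1 := (div_lt_one hd0).2 hg.2.1
  obtain ⟨n2, hn2⟩ := eventually_atTop.1 ((tendsto_order.1
    (tendsto_pow_atTop_nhds_zero_of_lt_one (by positivity : 0 ≤ κ / d) hκd)).2 ε hε)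
  refine ⟨max n1 n2, fun n hn => ?_⟩
  have hdn : (0 : ℝ) < (d : ℝ) ^ n := by positivity
  have b1 : C + E.card * Real.log 2 ≤ ε * (d : ℝ) ^ n := by
    have := hn1 n ((le_max_left _ _).trans hn)
    rw [div_le_iff₀ hε] at this
    linarith
  have b2 : κ ^ n ≤ ε * (d : ℝ) ^ n := by
    have := (hn2 n ((le_max_right _ _).trans hn)).le
    rw [div_pow, div_le_iff₀ hdn] at this
    exact this
  have b3 : 0 ≤ (E.card : ℝ) * Real.log 2 := by positivity
  obtain ⟨ψ, hψ, hψ1, hψ2, hψ3, hψL⟩ := hcut (ε * (d : ℝ) ^ n) (by linarith)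
  obtain ⟨hP, hQ, hm, hc, -⟩ := h1 d (by omega) g n
  have hv : ∀ z, ψ z ≠ 0 → ‖(((g.it n).1 - Polynomial.C z * (g.it n).2).roots.map (pot ρ)).sum -
      (d : ℂ) ^ n * ∫ w, (G w : ℂ) * ρ w‖ ≤ C1 * (C + 2) * (ε * (d : ℝ) ^ n) := by
    intro z hz
    obtain ⟨o1, o2⟩ := log_om E z _ (by positivity) (hψ3 z hz)
    have e1 := hu n z o1
    have hdc : ((d : ℂ) ^ n) ≠ 0 := by
      refine pow_ne_zero _ ?_
      exact_mod_cast hd0.ne'
    have e2 : (((g.it n).1 - Polynomial.C z * (g.it n).2).roots.map (pot ρ)).sum -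
        (d : ℂ) ^ n * ∫ w, (G w : ℂ) * ρ w = (d : ℂ) ^ n * (((d : ℂ) ^ n)⁻¹ *
          ((g.fib n z).roots.map (pot ρ)).sum - ∫ w, (G w : ℂ) * ρ w) := by
      rw [mul_sub, ← mul_assoc, mul_inv_cancel₀ hdc, one_mul]
      rfl
    rw [e2, norm_mul, norm_pow, Complex.norm_natCast]
    calc (d : ℝ) ^ n * ‖((d : ℂ) ^ n)⁻¹ * ((g.fib n z).roots.map (pot ρ)).sum -
          ∫ w, (G w : ℂ) * ρ w‖ ≤ (d : ℝ) ^ n * (C1 * ((κ / d) ^ n +
          |Real.log (om E z)| / (d : ℝ) ^ n)) :=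
          mul_le_mul_of_nonneg_left e1 hdn.le
      _ = C1 * (κ ^ n + |Real.log (om E z)|) := by
          rw [div_pow]
          field_simp
      _ ≤ C1 * (ε * (d : ℝ) ^ n + (C * (ε * (d : ℝ) ^ n) + ε * (d : ℝ) ^ n)) := by
          refine mul_le_mul_of_nonneg_left ?_ hC1
          linarith
      _ = _ := by ring
  have hs : 0 < Real.sqrt ε := Real.sqrt_pos.2 hε
  have hs1 : Real.sqrt ε ≤ 1 := Real.sqrt_le_one.2 hε1
  have hs2 : Real.sqrt ε ^ 2 = ε := Real.sq_sqrt hε.le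
  have key := core h5 h6 h7 h8 h9 h10 h11 (Nat.one_le_pow _ _ (by omega)) hc hP hQ hm χ hχ hχc
    (pot ρ) hU1 hUχ hUL _ (C1 * (C + 2) * (ε * (d : ℝ) ^ n)) (by positivity) ψ hψ hψ1
    (hψL.trans_lt ENNReal.ofReal_lt_top) hv (Real.sqrt ε)⁻¹ (inv_pos.2 hs)
  have hSm : MeasurableSet {z | Real.exp (-(ε * (d : ℝ) ^ n)) ≤ om E z} :=
    measurableSet_le measurable_const (om_meas E)
  calc ∫⁻ z in {z | Real.exp (-(ε * (d : ℝ) ^ n)) ≤ om E z},
        ‖((g.fib n z).roots.map fun x => χ x / g.der n x).sum‖ₑ ^ 2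
      = ∫⁻ z in {z | Real.exp (-(ε * (d : ℝ) ^ n)) ≤ om E z}, ENNReal.ofReal (ψ z) *
        ‖((g.fib n z).roots.map fun x => χ x / g.der n x).sum‖ₑ ^ 2 := by
        refine setLIntegral_congr_fun hSm fun z hz => ?_
        rw [hψ2 z hz, ENNReal.ofReal_one, one_mul]
    _ ≤ ∫⁻ z, ENNReal.ofReal (ψ z) *
        ‖((g.fib n z).roots.map fun x => χ x / g.der n x).sum‖ₑ ^ 2 := setLIntegral_le_lintegral _ _
    _ ≤ _ := key
    _ ≤ ENNReal.ofReal (C1 * (C + 2) * (ε * (d : ℝ) ^ n)) * (ENNReal.ofReal N1 +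
        (ENNReal.ofReal (Real.sqrt ε)⁻¹ * ENNReal.ofReal N2 + ENNReal.ofReal (Real.sqrt ε) *
          (ENNReal.ofReal ((d : ℝ) ^ n) * ENNReal.ofReal (C / (ε * (d : ℝ) ^ n))))) := by
        rw [hN1e, hN2e, inv_inv]
        have e5 : ((d ^ n : ℕ) : ℝ≥0∞) = ENNReal.ofReal ((d : ℝ) ^ n) := by
          rw [← Nat.cast_pow, ENNReal.ofReal_natCast]
        rw [e5]
        gcongr
    _ = ENNReal.ofReal (C1 * (C + 2) * (ε * (d : ℝ) ^ n) * (N1 + ((Real.sqrt ε)⁻¹ * N2 +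
        Real.sqrt ε * ((d : ℝ) ^ n * (C / (ε * (d : ℝ) ^ n)))))) := by
        rw [ENNReal.ofReal_mul (p := C1 * (C + 2) * (ε * (d : ℝ) ^ n)) (by positivity),
          ENNReal.ofReal_add hN1 (by positivity),
          ENNReal.ofReal_add (by positivity) (by positivity),
          ENNReal.ofReal_mul (p := (Real.sqrt ε)⁻¹) (by positivity),
          ENNReal.ofReal_mul (p := Real.sqrt ε) (by positivity),
          ENNReal.ofReal_mul (p := (d : ℝ) ^ n) (by positivity)]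
    _ ≤ _ := by
        refine ENNReal.ofReal_le_ofReal ?_
        have := calcu C1 C N1 N2 (Real.sqrt ε) ((d : ℝ) ^ n) hC1 hC hN1 hs hs1 hdn
        rw [hs2] at this
        exact this

end Pool.Agent.H4.UDB
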